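import Mathlib
import Pool.Agent.Helper941.Dim.Final

/-!
For every `n ≥ 3` there is a computable structure of computable dimension two which is
`Δ⁰_{n+1}`-autostable but not `Δ⁰_n`-autostable.
-/

namespace Pool.Agent.Results.MP_e296b6_lc.DimensionTwo

open Pool.Agent.Helper941.Dim

theorem result (n : ℕ) (hn : 3 ≤ n) : ∃ A : Str, IsComp A ∧ compDim A = 2 ∧
    DeltaAutostable (n + 1) A ∧ ¬ DeltaAutostable n A :=
  main n (by omega)

end Pool.Agent.Results.MP_e296b6_lc.DimensionTwo
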